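import Pool.Agent.W743.BT.Defs

set_option autoImplicit false

/-! Derivatives of the symbol in one variable. -/

namespace Pool.Agent.W32.BT

open Set Filter MeasureTheory
open scoped Topology ContDiff
open Pool.Agent.W773.BRA Pool.Agent.W743.BT

lemma bdd_derivs (u : ℝ → ℝ) (hu : ContDiff ℝ ∞ u) (hc : HasCompactSupport u) (a : ℕ) :
    ∃ C : ℝ, 0 ≤ C ∧ ∀ j, j ≤ a → ∀ x, ‖iteratedFDeriv ℝ j u x‖ ≤ C := by
  have h1 : ∀ j : ℕ, ∃ C, ∀ x, ‖iteratedFDeriv ℝ j u x‖ ≤ C := fun j =>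
    (hu.continuous_iteratedFDeriv (by exact_mod_cast le_top)).bounded_above_of_compact_support
      (hc.iteratedFDeriv j)
  choose c hc' using h1
  have h0 : ∀ j, 0 ≤ c j := fun j => (norm_nonneg _).trans (hc' j 0)
  refine ⟨∑ j ∈ Finset.range (a + 1), c j, Finset.sum_nonneg fun j _ => h0 j, fun j hj x => ?_⟩
  exact (hc' j x).trans (Finset.single_le_sum (f := c) (fun i _ => h0 i)
    (Finset.mem_range.2 (by omega)))

lemma quad (c N : ℝ) (x D : ℝ) (hN : 0 ≤ N) (h1 : |2 * N * x| ≤ D) (h2 : 2 * N ≤ D ^ 2) (hD : 0 ≤ D)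
    (i : ℕ) (hi : 1 ≤ i) : ‖iteratedFDeriv ℝ i (fun t : ℝ => c - N * t ^ 2) x‖ ≤ D ^ i := by
  rw [norm_iteratedFDeriv_eq_norm_iteratedDeriv]
  have e1 : iteratedDeriv 1 (fun t : ℝ => c - N * t ^ 2) = fun t => -(2 * N) * t := by
    rw [iteratedDeriv_one]
    funext t
    have : HasDerivAt (fun t : ℝ => c - N * t ^ 2) (-(2 * N) * t) t := by
      have h := ((hasDerivAt_pow 2 t).const_mul N).const_sub c
      refine h.congr_deriv ?_
      push_cast; ring
    exact this.deriv
  have e2 : iteratedDeriv 2 (fun t : ℝ => c - N * t ^ 2) = fun _ => -(2 * N) := by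
    rw [iteratedDeriv_succ, e1]
    funext t
    have : HasDerivAt (fun t : ℝ => -(2 * N) * t) (-(2 * N)) t := by
      have h := (hasDerivAt_id t).const_mul (-(2 * N))
      exact h.congr_deriv (mul_one _)
    exact this.deriv
  have e3 : ∀ j : ℕ, iteratedDeriv (j + 3) (fun t : ℝ => c - N * t ^ 2) = fun _ => 0 := by
    intro j
    induction j with
    | zero =>
      rw [iteratedDeriv_succ, e2]
      funext t
      exact deriv_const t _
    | succ j ih =>
      rw [iteratedDeriv_succ, ih]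
      funext t
      exact deriv_const t _
  rcases Nat.lt_or_ge i 2 with h | h
  · have : i = 1 := by omega
    subst this
    rw [e1, pow_one, Real.norm_eq_abs]
    refine le_trans (le_of_eq ?_) h1
    show |-(2 * N) * x| = |2 * N * x|
    rw [neg_mul, abs_neg]
  · rcases Nat.lt_or_ge i 3 with h' | h'
    · have : i = 2 := by omega
      subst this
      rw [e2, norm_neg, Real.norm_of_nonneg (by linarith)]
      exact h2
    · obtain ⟨j, rfl⟩ := Nat.exists_eq_add_of_le' h'
      rw [e3, norm_zero]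
      positivity

lemma lin (r : ℝ) (x D : ℝ) (h1 : |r| ≤ D) (hD : 0 ≤ D)
    (i : ℕ) (hi : 1 ≤ i) : ‖iteratedFDeriv ℝ i (fun t : ℝ => r * t) x‖ ≤ D ^ i := by
  rw [norm_iteratedFDeriv_eq_norm_iteratedDeriv]
  have e1 : iteratedDeriv 1 (fun t : ℝ => r * t) = fun _ => r := by
    rw [iteratedDeriv_one]
    funext t
    have : HasDerivAt (fun t : ℝ => r * t) r t := by
      have h := (hasDerivAt_id t).const_mul r
      exact h.congr_deriv (mul_one _)
    exact this.deriv
  have e3 : ∀ j : ℕ, iteratedDeriv (j + 2) (fun t : ℝ => r * t) = fun _ => 0 := by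
    intro j
    induction j with
    | zero =>
      rw [iteratedDeriv_succ, e1]
      funext t
      exact deriv_const t _
    | succ j ih =>
      rw [iteratedDeriv_succ, ih]
      funext t
      exact deriv_const t _
  rcases Nat.lt_or_ge i 2 with h | h
  · have : i = 1 := by omega
    subst this
    rw [e1, pow_one, Real.norm_eq_abs]
    exact h1
  · obtain ⟨j, rfl⟩ := Nat.exists_eq_add_of_le' h
    rw [e3, norm_zero]
    positivity

lemma th_contDiff : ContDiff ℝ ∞ th := chi_contDiff.comp (contDiff_id.pow 2)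

lemma th_zero {t : ℝ} (h : 2 ≤ t ^ 2) : th t = 0 := chi_zero h

lemma th_compact : HasCompactSupport th := by
  refine HasCompactSupport.intro (isCompact_Icc (a := (-2 : ℝ)) (b := 2)) fun x hx => ?_
  apply th_zero
  rw [mem_Icc, not_and_or, not_le, not_le] at hx
  rcases hx with hx | hx <;> nlinarith

/-- the profiles -/
noncomputable def u1 (s : ℝ) : ℝ := th s - th (2 * s)

lemma u1_contDiff : ContDiff ℝ ∞ u1 :=
  th_contDiff.sub (th_contDiff.comp (contDiff_const.mul contDiff_id))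

lemma u1_compact : HasCompactSupport u1 := by
  refine HasCompactSupport.intro (isCompact_Icc (a := (-2 : ℝ)) (b := 2)) fun x hx => ?_
  unfold u1
  rw [mem_Icc, not_and_or, not_le, not_le] at hx
  have h4 : 4 ≤ x ^ 2 := by
    rcases hx with hx | hx <;> nlinarith
  rw [th_zero (by linarith), th_zero (by nlinarith), sub_zero]

/-- the common bound -/
lemma core (h u : ℝ → ℝ) (hh : ContDiff ℝ ∞ h) (hu : ContDiff ℝ ∞ u) (Ch Cu : ℝ) (a : ℕ)
    (h0 : 0 ≤ Ch) (h0' : 0 ≤ Cu)
    (hCh : ∀ j, j ≤ a → ∀ x, ‖iteratedFDeriv ℝ j h x‖ ≤ Ch)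
    (hCu : ∀ j, j ≤ a → ∀ x, ‖iteratedFDeriv ℝ j u x‖ ≤ Cu) (c N r D x : ℝ) (hN : 0 ≤ N)
    (h1 : |2 * N * x| ≤ D) (h2 : 2 * N ≤ D ^ 2) (hD : 0 ≤ D) (hr : |r| ≤ D) :
    |iteratedDeriv a (fun t : ℝ => h (c - N * t ^ 2) * u (r * t)) x| ≤
      (2 : ℝ) ^ a * ((a.factorial * Ch) * (a.factorial * Cu)) * D ^ a := by
  have f1 : ContDiff ℝ ∞ (fun t : ℝ => c - N * t ^ 2) :=
    contDiff_const.sub (contDiff_const.mul (contDiff_id.pow 2))
  have f2 : ContDiff ℝ ∞ (fun t : ℝ => r * t) := contDiff_const.mul contDiff_id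
  have b1 : ∀ j, j ≤ a → ‖iteratedFDeriv ℝ j (fun t : ℝ => h (c - N * t ^ 2)) x‖ ≤
      (a.factorial * Ch) * D ^ j := by
    intro j hj
    have := norm_iteratedFDeriv_comp_le (n := j) hh f1 (by exact_mod_cast le_top) x
      (fun i hi => hCh i (hi.trans hj) _) (fun i hi _ => quad c N x D hN h1 h2 hD i hi)
    refine this.trans ?_
    have h3 : (j.factorial : ℝ) ≤ a.factorial := by exact_mod_cast Nat.factorial_le hj
    have h4 : 0 ≤ D ^ j := by positivity
    have h5 : (j.factorial : ℝ) * Ch ≤ a.factorial * Ch := mul_le_mul_of_nonneg_right h3 h0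
    exact mul_le_mul_of_nonneg_right h5 h4
  have b2 : ∀ j, j ≤ a → ‖iteratedFDeriv ℝ j (fun t : ℝ => u (r * t)) x‖ ≤
      (a.factorial * Cu) * D ^ j := by
    intro j hj
    have := norm_iteratedFDeriv_comp_le (n := j) hu f2 (by exact_mod_cast le_top) x
      (fun i hi => hCu i (hi.trans hj) _) (fun i hi _ => lin r x D hr hD i hi)
    refine this.trans ?_
    have h3 : (j.factorial : ℝ) ≤ a.factorial := by exact_mod_cast Nat.factorial_le hj
    have h4 : 0 ≤ D ^ j := by positivity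
    have h5 : (j.factorial : ℝ) * Cu ≤ a.factorial * Cu := mul_le_mul_of_nonneg_right h3 h0'
    exact mul_le_mul_of_nonneg_right h5 h4
  rw [← Real.norm_eq_abs, ← norm_iteratedFDeriv_eq_norm_iteratedDeriv]
  refine (norm_iteratedFDeriv_mul_le (hh.comp f1) (hu.comp f2) x
    (n := a) (by exact_mod_cast le_top)).trans ?_
  have hA : 0 ≤ (a.factorial : ℝ) * Ch := by positivity
  have hB : 0 ≤ (a.factorial : ℝ) * Cu := by positivity
  calc _ ≤ ∑ i ∈ Finset.range (a + 1), (a.choose i : ℝ) *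
        (((a.factorial * Ch) * (a.factorial * Cu)) * D ^ a) := by
        refine Finset.sum_le_sum fun i hi => ?_
        have hi' : i ≤ a := by rw [Finset.mem_range] at hi; omega
        rw [mul_assoc]
        refine mul_le_mul_of_nonneg_left ?_ (Nat.cast_nonneg _)
        have e : D ^ a = D ^ i * D ^ (a - i) := by rw [← pow_add]; congr 1; omega
        calc _ ≤ ((a.factorial * Ch) * D ^ i) * ((a.factorial * Cu) * D ^ (a - i)) :=
              mul_le_mul (b1 i hi') (b2 (a - i) (by omega)) (norm_nonneg _) (by positivity)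
          _ = _ := by rw [e]; ring
    _ = _ := by
        rw [← Finset.sum_mul, ← Nat.cast_sum, Nat.sum_range_choose]
        push_cast
        ring

theorem d1 : S_D1 := by
  intro h hb a
  have hcs : HasCompactSupport h := HasCompactSupport.intro isCompact_Icc hb.2
  obtain ⟨Ch, h0, hCh⟩ := bdd_derivs h hb.1 hcs a
  obtain ⟨C1, h01, hC1⟩ := bdd_derivs u1 u1_contDiff u1_compact a
  obtain ⟨C2, h02, hC2⟩ := bdd_derivs th th_contDiff th_compact a
  refine ⟨(2 : ℝ) ^ a * ((a.factorial * Ch) * (a.factorial * (C1 + C2))) * 4 ^ a + 1, by positivity,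
    ?_⟩
  intro c N K i hN hK hi
  have hw : ∃ u : ℝ → ℝ, (u = u1 ∨ u = th) ∧ ∀ t, w K i t = u (2 ^ i * t) := by
    rcases lt_or_eq_of_le hi with h | h
    · refine ⟨u1, Or.inl rfl, fun t => ?_⟩
      unfold w u1
      rw [if_pos h, pow_succ]
      congr 2
      ring
    · refine ⟨th, Or.inr rfl, fun t => ?_⟩
      unfold w
      rw [if_neg (by omega), h]
  obtain ⟨u, hu, hw⟩ := hw
  have hu1 : ContDiff ℝ ∞ u := by
    rcases hu with rfl | rfl
    · exact u1_contDiff
    · exact th_contDiff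
  have hu2 : ∀ j, j ≤ a → ∀ x, ‖iteratedFDeriv ℝ j u x‖ ≤ C1 + C2 := by
    rcases hu with rfl | rfl
    · exact fun j hj x => (hC1 j hj x).trans (by linarith)
    · exact fun j hj x => (hC2 j hj x).trans (by linarith)
  have hu3 : ∀ s, 2 ≤ s ^ 2 → u s = 0 := by
    rcases hu with rfl | rfl
    · intro s hs
      unfold u1
      rw [th_zero hs, th_zero (by nlinarith), sub_zero]
    · exact fun s hs => th_zero hs
  have hl : (0 : ℝ) < (1 / 2) ^ i := by positivity
  have h2i : (2 : ℝ) ^ i * (1 / 2) ^ i = 1 := by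
    rw [← mul_pow]; norm_num
  have h4i : 1 ≤ N * ((1 / 2 : ℝ) ^ i) ^ 2 := by
    have h5 : (4 : ℝ) ^ i ≤ N := (pow_le_pow_right₀ (by norm_num) hi).trans hK
    have h6 : (4 : ℝ) ^ i * ((1 / 2 : ℝ) ^ i) ^ 2 = 1 := by
      rw [← pow_mul, mul_comm i 2, pow_mul, ← mul_pow]; norm_num
    calc (1 : ℝ) = (4 : ℝ) ^ i * ((1 / 2 : ℝ) ^ i) ^ 2 := h6.symm
      _ ≤ _ := mul_le_mul_of_nonneg_right h5 (by positivity)
  have hfe : (fun t : ℝ => h (c - N * t ^ 2) * w K i t) =
      fun t : ℝ => h (c - N * t ^ 2) * u (2 ^ i * t) := by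
    funext t
    rw [hw]
  have hz : ∀ t : ℝ, (3 / 2 : ℝ) * (1 / 2) ^ i < |t| → u (2 ^ i * t) = 0 := by
    intro t ht
    apply hu3
    have h7 : (3 / 2 : ℝ) < 2 ^ i * |t| := by
      calc (3 / 2 : ℝ) = 2 ^ i * ((3 / 2 : ℝ) * (1 / 2) ^ i) := by
            rw [mul_left_comm, h2i, mul_one]
        _ < _ := mul_lt_mul_of_pos_left ht (by positivity)
    have h8 : ((2 : ℝ) ^ i * t) ^ 2 = (2 ^ i * |t|) ^ 2 := by
      rw [mul_pow, mul_pow, sq_abs]
    rw [h8]
    nlinarith
  refine ⟨?_, ?_, ?_⟩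
  · rw [hfe]
    exact (hb.1.comp (contDiff_const.sub (contDiff_const.mul (contDiff_id.pow 2)))).mul
      (hu1.comp (contDiff_const.mul contDiff_id))
  · intro t ht
    rw [hw, hz t (by nlinarith), mul_zero]
  · intro t
    rw [hfe]
    rcases le_or_gt |t| (2 * (1 / 2 : ℝ) ^ i) with ht | ht
    · have hD : 0 ≤ 4 * (N * (1 / 2 : ℝ) ^ i) := by positivity
      have := core h u hb.1 hu1 Ch (C1 + C2) a h0 (by positivity) hCh hu2 c N (2 ^ i)
        (4 * (N * (1 / 2 : ℝ) ^ i)) t (by linarith) ?_ ?_ hD ?_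
      · refine this.trans ?_
        rw [mul_pow]
        have hq : 0 ≤ (N * (1 / 2 : ℝ) ^ i) ^ a := by positivity
        nlinarith
      · rw [abs_mul, abs_of_nonneg (by linarith : 0 ≤ 2 * N)]
        nlinarith
      · nlinarith
      · rw [abs_of_pos (by positivity)]
        have h9 : (2 : ℝ) ^ i ≤ N * (1 / 2 : ℝ) ^ i := by
          calc (2 : ℝ) ^ i = 2 ^ i * 1 := (mul_one _).symm
            _ ≤ 2 ^ i * (N * ((1 / 2 : ℝ) ^ i) ^ 2) :=
                mul_le_mul_of_nonneg_left h4i (by positivity)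
            _ = (2 ^ i * (1 / 2 : ℝ) ^ i) * (N * (1 / 2 : ℝ) ^ i) := by ring
            _ = _ := by rw [h2i, one_mul]
        have h10 : 0 ≤ N * (1 / 2 : ℝ) ^ i := by positivity
        linarith
    · have hev : (fun t : ℝ => h (c - N * t ^ 2) * u (2 ^ i * t)) =ᶠ[𝓝 t] fun _ => 0 := by
        have ho : IsOpen {t : ℝ | (3 / 2 : ℝ) * (1 / 2) ^ i < |t|} :=
          isOpen_lt continuous_const continuous_abs
        filter_upwards [ho.mem_nhds (show (3 / 2 : ℝ) * (1 / 2) ^ i < |t| by nlinarith)] with s hs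
        rw [hz s hs, mul_zero]
      have h11 : iteratedDeriv a (fun t : ℝ => h (c - N * t ^ 2) * u (2 ^ i * t)) t = 0 := by
        rw [hev.iteratedDeriv_eq a]
        rw [← norm_eq_zero, ← norm_iteratedFDeriv_eq_norm_iteratedDeriv, iteratedFDeriv_fun_zero]
        simp
      rw [h11, abs_zero]
      positivity

end Pool.Agent.W32.BT
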